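import Pool.Agent.V11165.QF.Main

/-!
# Strongly forcing matrices of permutation matrices: the excess over the conjectured value

The conjectured value of `M(n, I_k)` is `value k n = n ^ 2 - (2 k - 3) n + k ^ 2 - 2 k`, which is
`k + m ^ 2 + 3 m` with `m = n - k`. Let `P` be a `k × k` permutation matrix and `A` a strongly `P`-forcing
`n × n` matrix. We prove that the number of the ones of `A` is at most `value k n`, or at most
`value k n + min (d (k - 3 - d), m (m - 1 - 2 d))` for some `d ≥ 1`. In particular it is at most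
`value k n + m (m - 3)`, if `m ≥ 3`. So the error is bounded in terms of `n - k` alone.
-/

set_option autoImplicit false

namespace Pool.Agent.Results.MP_008206_co.ExcessBound

open Finset Pool.Agent.V11165.QF

/-- The conjectured value `n ^ 2 - (2 k - 3) n + k ^ 2 - 2 k` of `M(n, I_k)`. -/
def value (k n : ℕ) : ℤ := (n : ℤ) ^ 2 - (2 * k - 3) * n + (k ^ 2 - 2 * k)

/-- The conclusion for the excess `E`, with `t = k - 1` and `n`. -/
def Concl (t n : ℕ) (E : ℤ) : Prop :=
  E ≤ 0 ∨ ∃ d : ℕ, 1 ≤ d ∧ E ≤ d * ((t : ℤ) - 2 - d) ∧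
    E ≤ ((n : ℤ) - t - 1) * ((n : ℤ) - t - 2 - 2 * d)

lemma row {n : ℕ} {G : Fin n → Fin n → Prop} {t D : ℕ} (h : Cov G t) {x : Fin n}
    (hx : rdeg G x = D) (hD : 1 ≤ D) (hr : ∀ s, rdeg G s ≤ D) (hc : ∀ y, cdeg G y ≤ D) :
    Concl t n ((ones G : ℤ) - (((n : ℤ) - t) ^ 2 + n - 1)) := by
  classical
  have hex : ∃ y, G x y := by
    by_contra hcon
    push Not at hcon
    have : rdeg G x = 0 := by
      show (univ.filter fun y => G x y).card = 0
      rw [card_eq_zero]
      ext y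
      simp [hcon y]
    omega
  obtain ⟨y, hxy⟩ := hex
  have hle := rdeg_add_le h hxy
  rw [hx] at hle
  obtain ⟨d, hd⟩ : ∃ d, n = t + d + D := ⟨n - t - D, by omega⟩
  obtain ⟨q, b, hq, h1, h2, h3⟩ := master h x hx hr hc hd
  have h4 : ones G ≤ n * D := by
    calc ones G ≤ ∑ s : Fin n, D := sum_le_sum fun s _ => hr s
      _ = n * D := by rw [sum_const, card_univ, Fintype.card_fin, smul_eq_mul]
  have z1 : (n : ℤ) = t + d + D := by exact_mod_cast hd
  have z2 : (q : ℤ) + b + 1 = n := by exact_mod_cast hq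
  have z3 : (ones G : ℤ) + D * t ≤ D * n + (d + 1) * q := by exact_mod_cast h1
  have z4 : (ones G : ℤ) ≤ D * D + (d + 1) * q + D * b := by exact_mod_cast h2
  have z5 : (ones G : ℤ) ≤ D * D + (d + 1) * q + (t + d) * b := by exact_mod_cast h3
  have z6 : (ones G : ℤ) ≤ n * D := by exact_mod_cast h4
  have z8 : (1 : ℤ) ≤ D := by exact_mod_cast hD
  have hb : (0 : ℤ) ≤ b := by positivity
  obtain ⟨e1, e2, -, -⟩ := excess z1 z2 z3 z4 z5 z6
  have h5 := ones_le_copy h hxy hr hc
  have z9 : (ones G : ℤ) + 2 * D * (t + 1) ≤ (t + 1) + 2 * D * n := by exact_mod_cast h5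
  -- the bound from one copy
  have e5 : (ones G : ℤ) - (((n : ℤ) - t) ^ 2 + n - 1) ≤
      ((n : ℤ) - t - 1) * ((n : ℤ) - t - 2 - 2 * d) := by
    have hDd : (D : ℤ) = n - t - d := by linarith
    rw [hDd] at z9
    nlinarith
  rcases Nat.eq_zero_or_pos d with hd0 | hd0
  · left
    rw [hd0] at e1
    push_cast at e1
    linarith
  · rcases Nat.lt_or_ge d D with hdD | hdD
    · right
      refine ⟨d, hd0, ?_, e5⟩
      have y1 : (d : ℤ) + 1 ≤ D := by exact_mod_cast hdD
      have y2 : (0 : ℤ) ≤ d := by positivity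
      rcases le_or_gt (d : ℤ) b with hbd | hbd
      · have : ((d : ℤ) + 1) * d ≤ (d + 1) * b := mul_le_mul_of_nonneg_left hbd (by linarith)
        nlinarith
      · have : ((D : ℤ) - d - 1) * b ≤ (D - d - 1) * d :=
          mul_le_mul_of_nonneg_left hbd.le (by linarith)
        nlinarith
    · left
      have y1 : (D : ℤ) ≤ d := by exact_mod_cast hdD
      have y2 : (1 : ℤ) ≤ d := by exact_mod_cast hd0
      have y3 : ((n : ℤ) - t - 1) * ((n : ℤ) - t - 2 - 2 * d) ≤ 0 := by
        have y4 : (n : ℤ) - t - 1 = d + D - 1 := by linarith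
        have y5 : (n : ℤ) - t - 2 - 2 * d = D - d - 2 := by linarith
        rw [y4, y5]
        exact mul_nonpos_of_nonneg_of_nonpos (by linarith) (by linarith)
      linarith

lemma all {n : ℕ} {G : Fin n → Fin n → Prop} {t : ℕ} (htn : t + 1 ≤ n)
    (h : Cov G t) : Concl t n ((ones G : ℤ) - (((n : ℤ) - t) ^ 2 + n - 1)) := by
  classical
  have hn1 : 0 < n := by omega
  haveI : Nonempty (Fin n) := ⟨⟨0, hn1⟩⟩
  obtain ⟨x, -, hx⟩ := exists_max_image (univ : Finset (Fin n)) (rdeg G) univ_nonempty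
  obtain ⟨y, -, hy⟩ := exists_max_image (univ : Finset (Fin n)) (cdeg G) univ_nonempty
  by_cases h0 : ones G = 0
  · left
    have hnz : (1 : ℤ) ≤ n := by exact_mod_cast hn1
    have hsq : (0 : ℤ) ≤ ((n : ℤ) - t) ^ 2 := sq_nonneg _
    have h00 : (ones G : ℤ) = 0 := by exact_mod_cast h0
    rw [h00]
    linarith
  rcases le_total (cdeg G y) (rdeg G x) with hxy | hxy
  · refine row h (x := x) rfl ?_ (fun s => hx s (mem_univ _))
      (fun s => (hy s (mem_univ _)).trans hxy)
    by_contra hcon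
    apply h0
    rw [ones, sum_eq_zero_iff]
    intro s _
    have := hx s (mem_univ _)
    omega
  · have hsw : ones (fun a b => G b a) = ones G := by
      rw [ones_eq_cols G]
      rfl
    have := row h.swap (x := y) (D := cdeg G y) rfl ?_ (fun s => hy s (mem_univ _))
      (fun s => (hx s (mem_univ _)).trans hxy)
    · rw [hsw] at this
      exact this
    · by_contra hcon
      apply h0
      rw [ones_eq_cols, sum_eq_zero_iff]
      intro s _
      have := hy s (mem_univ _)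
      omega

/-- **The excess over the conjectured value.** Let `n ≥ k ≥ 1`, `m = n - k`, and let `A` be a strongly
`P`-forcing `n × n` matrix, where `P` is a `k × k` permutation matrix. Then the number of the ones of `A`
is at most `value k n`, or at most `value k n + min (d (k - 3 - d), m (m - 1 - 2 d))` for some `d ≥ 1`.
In particular it is at most `value k n + m (m - 3)`, if `m ≥ 3`. -/
theorem result (k n : ℕ) (hk : 1 ≤ k) (hn : k ≤ n) (σ : Equiv.Perm (Fin k))
    (A : Fin n → Fin n → Bool) (hA : Forcing (permMat σ) A) :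
    ((count A : ℤ) ≤ value k n ∨ ∃ d : ℕ, 1 ≤ d ∧
      (count A : ℤ) ≤ value k n + d * ((k : ℤ) - 3 - d) ∧
      (count A : ℤ) ≤ value k n + ((n : ℤ) - k) * ((n : ℤ) - k - 1 - 2 * d)) ∧
    (k + 3 ≤ n → (count A : ℤ) ≤ value k n + ((n : ℤ) - k) * ((n : ℤ) - k - 3)) := by
  obtain ⟨t, rfl⟩ : ∃ t, k = t + 1 := ⟨k - 1, by omega⟩
  have h1 := all hn hA.cov
  rw [← count_eq A] at h1
  have hv : value (t + 1) n = ((n : ℤ) - t) ^ 2 + n - 1 := by
    unfold value
    push_cast
    ring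
  have h2 : ((count A : ℤ) ≤ value (t + 1) n ∨ ∃ d : ℕ, 1 ≤ d ∧
      (count A : ℤ) ≤ value (t + 1) n + d * (((t + 1 : ℕ) : ℤ) - 3 - d) ∧
      (count A : ℤ) ≤ value (t + 1) n +
        ((n : ℤ) - ((t + 1 : ℕ) : ℤ)) * ((n : ℤ) - ((t + 1 : ℕ) : ℤ) - 1 - 2 * d)) := by
    rw [hv]
    rcases h1 with h1 | ⟨d, hd, h2, h3⟩
    · left
      linarith
    · right
      refine ⟨d, hd, ?_, ?_⟩
      · push_cast
        linarith
      · push_cast
        linarith
  refine ⟨h2, fun hn3 => ?_⟩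
  have hm : (3 : ℤ) ≤ (n : ℤ) - ((t + 1 : ℕ) : ℤ) := by
    have : ((t + 1 + 3 : ℕ) : ℤ) ≤ n := by exact_mod_cast hn3
    push_cast at this ⊢
    linarith
  rcases h2 with h2 | ⟨d, hd, -, h3⟩
  · have : (0 : ℤ) ≤ ((n : ℤ) - ((t + 1 : ℕ) : ℤ)) * ((n : ℤ) - ((t + 1 : ℕ) : ℤ) - 3) :=
      mul_nonneg (by linarith) (by linarith)
    linarith
  · have hd' : (1 : ℤ) ≤ d := by exact_mod_cast hd
    have : ((n : ℤ) - ((t + 1 : ℕ) : ℤ)) * ((n : ℤ) - ((t + 1 : ℕ) : ℤ) - 1 - 2 * d) ≤
        ((n : ℤ) - ((t + 1 : ℕ) : ℤ)) * ((n : ℤ) - ((t + 1 : ℕ) : ℤ) - 3) :=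
      mul_le_mul_of_nonneg_left (by linarith) (by linarith)
    linarith

end Pool.Agent.Results.MP_008206_co.ExcessBound
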